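import Pool.Agent.Helper34.Ram5.Hurw

set_option autoImplicit false

/-!
# Upper bound for the sum of the weights over primitive rows (module `A_up`, Hurwitz order)
-/

namespace Pool.Agent.Helper34.Ram5

open Pool.Agent.Helper10.Ram5
open scoped Quaternion

lemma uval_smul {e : ℍ[ℝ]} (he : ‖e‖ = 1) (v : ℍ[ℝ] × ℍ[ℝ]) (p : Pt) :
    uval (e * v.1, e * v.2) p = uval v p := by
  unfold uval
  have h1 : e * v.1 * p.1 + e * v.2 = e * (v.1 * p.1 + v.2) := by
    rw [mul_add, mul_assoc]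
  simp only
  rw [h1, norm_mul, norm_mul, he, one_mul, one_mul]

/-! ### the units -/

/-- the 24 units, by their doubled coordinates -/
def five : Finset ℤ := {-2, -1, 0, 1, 2}

/-- doubled coordinates of the 24 units -/
def unitCoords : Finset (ℤ × ℤ × ℤ × ℤ) :=
  (five ×ˢ five ×ˢ five ×ˢ five).filter
    fun m => m.1 ^ 2 + m.2.1 ^ 2 + m.2.2.1 ^ 2 + m.2.2.2 ^ 2 = 4 ∧
      (m.1 - m.2.2.2) % 2 = 0 ∧ (m.2.1 - m.2.2.2) % 2 = 0 ∧ (m.2.2.1 - m.2.2.2) % 2 = 0

lemma card_unitCoords : unitCoords.card = 24 := by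
  unfold unitCoords
  decide +kernel

/-- the quaternion with given doubled coordinates -/
noncomputable def mkq (m : ℤ × ℤ × ℤ × ℤ) : ℍ[ℝ] :=
  ⟨(m.1 : ℝ) / 2, (m.2.1 : ℝ) / 2, (m.2.2.1 : ℝ) / 2, (m.2.2.2 : ℝ) / 2⟩

lemma mkq_re (m : ℤ × ℤ × ℤ × ℤ) : (mkq m).re = (m.1 : ℝ) / 2 := rfl
lemma mkq_imI (m : ℤ × ℤ × ℤ × ℤ) : (mkq m).imI = (m.2.1 : ℝ) / 2 := rfl
lemma mkq_imJ (m : ℤ × ℤ × ℤ × ℤ) : (mkq m).imJ = (m.2.2.1 : ℝ) / 2 := rfl
lemma mkq_imK (m : ℤ × ℤ × ℤ × ℤ) : (mkq m).imK = (m.2.2.2 : ℝ) / 2 := rfl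

noncomputable def units : Finset ℍ[ℝ] := by
  classical
  exact unitCoords.image mkq

lemma card_units : units.card ≤ 24 := by
  classical
  unfold units
  exact Finset.card_image_le.trans card_unitCoords.le

lemma mem_units {x : ℍ[ℝ]} (hx : IsH x) (h : ‖x‖ = 1) : x ∈ units := by
  classical
  obtain ⟨a, b, c, d, h1, h2, h3, h4⟩ := hx
  unfold units
  rw [Finset.mem_image]
  have hn : ‖x‖ ^ 2 = 1 := by rw [h]; norm_num
  rw [nsq, h1, h2, h3, h4] at hn
  have hs : (((2 * a + d) ^ 2 + (2 * b + d) ^ 2 + (2 * c + d) ^ 2 + d ^ 2 : ℤ) : ℝ) = ((4 : ℤ) : ℝ) := by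
    push_cast
    linarith
  have hs' : (2 * a + d) ^ 2 + (2 * b + d) ^ 2 + (2 * c + d) ^ 2 + d ^ 2 = 4 := by exact_mod_cast hs
  have bd : ∀ y z : ℤ, y ^ 2 + z = 4 → 0 ≤ z → -2 ≤ y ∧ y ≤ 2 := by
    intro y z h5 h6
    constructor <;> nlinarith
  refine ⟨(2 * a + d, 2 * b + d, 2 * c + d, d), ?_, ?_⟩
  · unfold unitCoords
    rw [Finset.mem_filter]
    refine ⟨?_, hs', ?_, ?_, ?_⟩
    · have mem5 : ∀ y : ℤ, -2 ≤ y ∧ y ≤ 2 → y ∈ five := by
        rintro y ⟨h5, h6⟩
        unfold five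
        interval_cases y <;> simp
      simp only [Finset.mem_product]
      refine ⟨mem5 _ <| bd _ ((2 * b + d) ^ 2 + (2 * c + d) ^ 2 + d ^ 2) (by linarith) (by positivity),
        mem5 _ <| bd _ ((2 * a + d) ^ 2 + (2 * c + d) ^ 2 + d ^ 2) (by linarith) (by positivity),
        mem5 _ <| bd _ ((2 * a + d) ^ 2 + (2 * b + d) ^ 2 + d ^ 2) (by linarith) (by positivity),
        mem5 _ <| bd _ ((2 * a + d) ^ 2 + (2 * b + d) ^ 2 + (2 * c + d) ^ 2) (by linarith) (by positivity)⟩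
    · simp only; omega
    · simp only; omega
    · simp only; omega
  · apply Quaternion.ext
    · rw [h1, mkq_re]; push_cast; ring
    · rw [h2, mkq_imI]; push_cast; ring
    · rw [h3, mkq_imJ]; push_cast; ring
    · rw [h4, mkq_imK]

/-! ### covering by pairwise independent rows -/

lemma cover (S : Finset (ℍ[ℝ] × ℍ[ℝ])) (hS : ∀ v ∈ S, v ∈ Prim Hur) :
    ∃ T : Finset (ℍ[ℝ] × ℍ[ℝ]), T ⊆ S ∧ (∀ v ∈ T, ∀ w ∈ T, v ≠ w → dtn v w ≠ 0) ∧
      ∀ v ∈ S, ∃ t ∈ T, ∃ e, IsH e ∧ ‖e‖ = 1 ∧ v = (e * t.1, e * t.2) := by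
  classical
  induction S using Finset.induction_on with
  | empty => exact ⟨∅, by simp, by simp, by simp⟩
  | insert v S hv ih =>
    obtain ⟨T, hTS, hT, hc⟩ := ih (fun w hw => hS w (Finset.mem_insert_of_mem hw))
    by_cases hex : ∃ t ∈ T, dtn t v = 0
    · obtain ⟨t, ht, h0⟩ := hex
      refine ⟨T, hTS.trans (Finset.subset_insert _ _), hT, ?_⟩
      intro w hw
      rw [Finset.mem_insert] at hw
      rcases hw with rfl | hw
      · obtain ⟨e, he, he1, h⟩ := same_line (hS t (Finset.mem_insert_of_mem (hTS ht)))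
          (hS w (Finset.mem_insert_self _ _)) h0
        exact ⟨t, ht, e, he, he1, h⟩
      · exact hc w hw
    · push Not at hex
      refine ⟨insert v T, Finset.insert_subset_insert _ hTS, ?_, ?_⟩
      · intro a ha b hb hab
        rw [Finset.mem_insert] at ha hb
        rcases ha with rfl | ha
        · rcases hb with rfl | hb
          · exact absurd rfl hab
          · rw [dtn_comm]
            exact hex b hb
        · rcases hb with rfl | hb
          · exact hex a ha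
          · exact hT a ha b hb hab
      · intro w hw
        rw [Finset.mem_insert] at hw
        rcases hw with rfl | hw
        · exact ⟨w, Finset.mem_insert_self _ _, 1, IsH.one, norm_one, by simp⟩
        · obtain ⟨t, ht, r⟩ := hc w hw
          exact ⟨t, Finset.mem_insert_of_mem ht, r⟩

/-- the general reduction to pairwise independent rows, for any nonnegative profile -/
lemma generic (Φ : ℝ → ℝ) (hΦ : ∀ u, 0 ≤ Φ u) (M : ℝ) (p : Pt)
    (hT : ∀ T : Finset (ℍ[ℝ] × ℍ[ℝ]), (∀ v ∈ T, v ∈ Prim Hur) →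
      (∀ v ∈ T, ∀ w ∈ T, v ≠ w → dtn v w ≠ 0) →
      ∑ v ∈ T, Φ (uval v p) ≤ M) :
    ∑' v : Prim Hur, ENNReal.ofReal (Φ (uval v p)) ≤ ENNReal.ofReal (units.card * M) := by
  classical
  rw [ENNReal.tsum_eq_iSup_sum]
  apply iSup_le
  intro S
  have hnn : ∀ v : ℍ[ℝ] × ℍ[ℝ], 0 ≤ Φ (uval v p) := fun v => hΦ _
  rw [← ENNReal.ofReal_sum_of_nonneg (f := fun v : Prim Hur => Φ (uval v p))
    (fun v _ => hΦ _)]
  apply ENNReal.ofReal_le_ofReal
  have h1 : ∑ v ∈ S, Φ (uval v p)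
      = ∑ v ∈ S.image (fun v : Prim Hur => (v : ℍ[ℝ] × ℍ[ℝ])), Φ (uval v p) := by
    rw [Finset.sum_image (fun a _ b _ h => Subtype.ext h)]
  rw [h1]
  set S' := S.image (fun v : Prim Hur => (v : ℍ[ℝ] × ℍ[ℝ])) with hS'
  have hS'm : ∀ v ∈ S', v ∈ Prim Hur := by
    intro v hv
    rw [hS', Finset.mem_image] at hv
    obtain ⟨w, -, rfl⟩ := hv
    exact w.2
  obtain ⟨T, hTS, hTd, hcov⟩ := cover S' hS'm
  have hsum := hT T (fun v hv => hS'm v (hTS hv)) hTd
  choose! τ hτ ε hε hε1 hv using hcov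
  rw [← Finset.sum_fiberwise_of_maps_to (g := τ) (t := T) hτ]
  have h2 : ∀ t ∈ T, ∑ v ∈ S' with τ v = t, Φ (uval v p)
      ≤ units.card * Φ (uval t p) := by
    intro t ht
    have h3 : ∀ v ∈ S'.filter (fun v => τ v = t), Φ (uval v p) = Φ (uval t p) := by
      intro v hv'
      rw [Finset.mem_filter] at hv'
      have h4 := hv v hv'.1
      rw [hv'.2] at h4
      have h5 : uval v p = uval t p := by
        rw [h4]
        exact uval_smul (hε1 v hv'.1) t p
      rw [h5]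
    rw [Finset.sum_congr rfl h3, Finset.sum_const, nsmul_eq_mul]
    apply mul_le_mul_of_nonneg_right _ (hnn t)
    have h6 : S'.filter (fun v => τ v = t) ⊆ units.image (fun e => (e * t.1, e * t.2)) := by
      intro v hv'
      rw [Finset.mem_filter] at hv'
      rw [Finset.mem_image]
      refine ⟨ε v, mem_units (hε v hv'.1) (hε1 v hv'.1), ?_⟩
      have h4 := hv v hv'.1
      rw [hv'.2] at h4
      exact h4.symm
    have h7 := (Finset.card_le_card h6).trans Finset.card_image_le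
    exact_mod_cast h7
  calc ∑ t ∈ T, ∑ v ∈ S' with τ v = t, Φ (uval v p)
      ≤ ∑ t ∈ T, units.card * Φ (uval t p) := Finset.sum_le_sum h2
    _ = units.card * ∑ t ∈ T, Φ (uval t p) := by rw [Finset.mul_sum]
    _ ≤ units.card * M := mul_le_mul_of_nonneg_left hsum (by positivity)

/-! ### the second moment inequality -/

/-- expansion of the determinant in the coordinates `(c, c z + d)` -/
lemma dtn_shift (v w : ℍ[ℝ] × ℍ[ℝ]) (z : ℍ[ℝ]) :
    dtn v w = ‖v.1‖ ^ 2 * ‖w.1 * z + w.2‖ ^ 2 + ‖v.1 * z + v.2‖ ^ 2 * ‖w.1‖ ^ 2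
      - 2 * ip (star v.1 * (v.1 * z + v.2)) (star w.1 * (w.1 * z + w.2)) := by
  have h1 : ∀ x y : ℍ[ℝ], ‖x * z + y‖ ^ 2 = ‖x‖ ^ 2 * ‖z‖ ^ 2 + 2 * ip z (star x * y) + ‖y‖ ^ 2 := by
    intro x y
    simp only [nsq, ip, Quaternion.re_mul, Quaternion.imI_mul, Quaternion.imJ_mul,
      Quaternion.imK_mul, Quaternion.re_star, Quaternion.imI_star, Quaternion.imJ_star,
      Quaternion.imK_star, Quaternion.re_add, Quaternion.imI_add, Quaternion.imJ_add,
      Quaternion.imK_add]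
    ring
  have h2 : ∀ x y : ℍ[ℝ], star x * (x * z + y) = ‖x‖ ^ 2 • z + star x * y := by
    intro x y
    rw [mul_add, ← mul_assoc, Quaternion.star_mul_self, Quaternion.normSq_eq_norm_mul_self,
      Quaternion.coe_mul_eq_smul, pow_two]
  have h3 : ∀ (s t : ℝ) (a b : ℍ[ℝ]), ip (s • z + a) (t • z + b)
      = s * t * ‖z‖ ^ 2 + s * ip z b + t * ip z a + ip a b := by
    intro s t a b
    simp only [nsq, ip, Quaternion.re_add, Quaternion.imI_add, Quaternion.imJ_add,
      Quaternion.imK_add, Quaternion.re_smul, Quaternion.imI_smul, Quaternion.imJ_smul,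
      Quaternion.imK_smul, smul_eq_mul]
    ring
  have h4 : ip (star v.1 * v.2) (star w.1 * w.2) = (v.1 * star w.1 * w.2 * star v.2).re := by
    simp only [ip, Quaternion.re_mul, Quaternion.imI_mul, Quaternion.imJ_mul,
      Quaternion.imK_mul, Quaternion.re_star, Quaternion.imI_star, Quaternion.imJ_star,
      Quaternion.imK_star]
    ring
  rw [h1, h1, h2, h2, h3, h4]
  unfold dtn
  ring

lemma sum_dtn_le (T : Finset (ℍ[ℝ] × ℍ[ℝ])) {p : Pt} (hp : p ∈ UH) :
    2 * ∑ v ∈ T, ∑ w ∈ T, dtn v w ≤ (∑ v ∈ T, uval v p) ^ 2 := by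
  have hr : 0 < p.2 := hp
  set A : ℝ := ∑ v ∈ T, ‖v.1 * p.1 + v.2‖ ^ 2 with hA
  set B : ℝ := ∑ v ∈ T, ‖v.1‖ ^ 2 with hB
  have hs : ∑ v ∈ T, uval v p = A / p.2 + B * p.2 := by
    rw [hA, hB, Finset.sum_div, Finset.sum_mul, ← Finset.sum_add_distrib]
    apply Finset.sum_congr rfl
    intro v _
    unfold uval
    field_simp
  set q : ℍ[ℝ] × ℍ[ℝ] → ℍ[ℝ] := fun v => star v.1 * (v.1 * p.1 + v.2) with hq
  set X0 : ℝ := ∑ v ∈ T, (q v).re with hX0
  set X1 : ℝ := ∑ v ∈ T, (q v).imI with hX1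
  set X2 : ℝ := ∑ v ∈ T, (q v).imJ with hX2
  set X3 : ℝ := ∑ v ∈ T, (q v).imK with hX3
  have hD : ∑ v ∈ T, ∑ w ∈ T, dtn v w
      = 2 * (A * B) - 2 * (X0 * X0 + X1 * X1 + X2 * X2 + X3 * X3) := by
    have h1 : ∀ v w : ℍ[ℝ] × ℍ[ℝ], dtn v w
        = ‖v.1‖ ^ 2 * ‖w.1 * p.1 + w.2‖ ^ 2 + ‖v.1 * p.1 + v.2‖ ^ 2 * ‖w.1‖ ^ 2
          - 2 * ((q v).re * (q w).re + (q v).imI * (q w).imI + (q v).imJ * (q w).imJ
            + (q v).imK * (q w).imK) := by
      intro v w
      rw [dtn_shift v w p.1]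
      rfl
    simp only [h1]
    simp only [Finset.sum_sub_distrib, Finset.sum_add_distrib, ← Finset.mul_sum,
      ← Finset.sum_mul]
    rw [← hA, ← hB, ← hX0, ← hX1, ← hX2, ← hX3]
    ring
  rw [hD, hs]
  have h4 : (A / p.2 + B * p.2) ^ 2 = (A / p.2 - B * p.2) ^ 2 + 4 * (A * B) := by
    field_simp
    ring
  rw [h4]
  nlinarith [sq_nonneg (A / p.2 - B * p.2), mul_self_nonneg X0, mul_self_nonneg X1,
    mul_self_nonneg X2, mul_self_nonneg X3]

/-- the final estimate for a finite set of pairwise independent rows -/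
lemma final_step {c m M : ℝ} {p : Pt} (hp : p ∈ UH) (T : Finset (ℍ[ℝ] × ℍ[ℝ])) (hm : m ≤ M)
    (hM : 0 ≤ M)
    (hD : ∀ T' ⊆ T, 2 ≤ T'.card →
      (c * T'.card - M) ^ 2 ≤ 2 * ∑ v ∈ T', ∑ w ∈ T', dtn v w) :
    ∑ v ∈ T, max 0 (min (c - uval v p) m) ≤ M := by
  classical
  set T' := T.filter (fun v => uval v p < c) with hT'
  have h1 : ∑ v ∈ T, max 0 (min (c - uval v p) m) = ∑ v ∈ T', max 0 (min (c - uval v p) m) := by
    rw [hT', Finset.sum_filter]
    apply Finset.sum_congr rfl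
    intro v _
    by_cases h : uval v p < c
    · rw [if_pos h]
    · rw [if_neg h]
      apply max_eq_left
      exact (min_le_left _ _).trans (by linarith [not_lt.mp h])
  rw [h1]
  have hr : 0 < p.2 := hp
  by_cases hk : 2 ≤ T'.card
  · have h2 : ∀ v ∈ T', max 0 (min (c - uval v p) m) ≤ c - uval v p := by
      intro v hv
      rw [hT', Finset.mem_filter] at hv
      exact max_le (by linarith [hv.2]) (min_le_left _ _)
    have h3 := Finset.sum_le_sum h2
    rw [Finset.sum_sub_distrib, Finset.sum_const, nsmul_eq_mul] at h3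
    have h4 := hD T' (Finset.filter_subset _ _) hk
    have h5 := sum_dtn_le T' hp
    have h6 : 0 ≤ ∑ v ∈ T', uval v p := by
      apply Finset.sum_nonneg
      intro v _
      unfold uval
      positivity
    have h7 : c * T'.card - M ≤ ∑ v ∈ T', uval v p :=
      (abs_le_of_sq_le_sq' (h4.trans h5) h6).2
    linarith
  · have hk' : T'.card = 0 ∨ T'.card = 1 := by omega
    rcases hk' with h0 | h0
    · rw [Finset.card_eq_zero.mp h0]
      simpa using hM
    · obtain ⟨v, hv⟩ := Finset.card_eq_one.mp h0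
      rw [hv, Finset.sum_singleton]
      exact max_le hM ((min_le_right _ _).trans hm)

/-- lower bound for the sum of the determinants, from a classification -/
lemma sum_ge {κ : Type*} [DecidableEq κ] (T : Finset (ℍ[ℝ] × ℍ[ℝ])) (q : ℝ) (hq : 0 ≤ q)
    (cl : ℍ[ℝ] × ℍ[ℝ] → κ) (C : Finset κ) (hmap : ∀ v ∈ T, cl v ∈ C)
    (h0 : ∀ v ∈ T, 0 ≤ dtn v v)
    (h1 : ∀ v ∈ T, ∀ w ∈ T, v ≠ w → 1 ≤ dtn v w)
    (h2 : ∀ v ∈ T, ∀ w ∈ T, v ≠ w → cl v = cl w → 1 + q ≤ dtn v w)
    (hC : 0 < C.card) :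
    (1 + q / C.card) * (T.card : ℝ) ^ 2 - (1 + q) * T.card
      ≤ ∑ v ∈ T, ∑ w ∈ T, dtn v w := by
  classical
  have h3 : ∑ v ∈ T, ∑ w ∈ T, (1 - (1 + q) * (if v = w then (1 : ℝ) else 0)
        + q * (if cl w = cl v then 1 else 0)) ≤ ∑ v ∈ T, ∑ w ∈ T, dtn v w := by
    apply Finset.sum_le_sum
    intro v hv
    apply Finset.sum_le_sum
    intro w hw
    by_cases h4 : v = w
    · subst h4
      simp only [if_true]
      have := h0 v hv
      linarith
    · rw [if_neg h4]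
      by_cases h5 : cl w = cl v
      · rw [if_pos h5]
        have := h2 v hv w hw h4 h5.symm
        linarith
      · rw [if_neg h5]
        have := h1 v hv w hw h4
        linarith
  refine le_trans ?_ h3
  have h4 : ∑ v ∈ T, ∑ w ∈ T, (1 - (1 + q) * (if v = w then (1 : ℝ) else 0)
        + q * (if cl w = cl v then 1 else 0))
      = (T.card : ℝ) ^ 2 - (1 + q) * T.card
        + q * ∑ k ∈ C, ((T.filter (fun v => cl v = k)).card : ℝ) ^ 2 := by
    have h5 : ∀ v ∈ T, ∑ w ∈ T, (1 - (1 + q) * (if v = w then (1 : ℝ) else 0)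
        + q * (if cl w = cl v then 1 else 0))
        = (T.card : ℝ) - (1 + q) + q * ((T.filter (fun w => cl w = cl v)).card : ℝ) := by
      intro v hv
      rw [Finset.sum_add_distrib, Finset.sum_sub_distrib, ← Finset.mul_sum, ← Finset.mul_sum,
        Finset.sum_ite_eq, if_pos hv, Finset.sum_boole]
      simp
    rw [Finset.sum_congr rfl h5, Finset.sum_add_distrib, Finset.sum_const, nsmul_eq_mul,
      ← Finset.mul_sum]
    have h7 : ∑ v ∈ T, ((T.filter (fun w => cl w = cl v)).card : ℝ)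
        = ∑ k ∈ C, ((T.filter (fun w => cl w = k)).card : ℝ) ^ 2 := by
      rw [← Finset.sum_fiberwise_of_maps_to (g := cl) (t := C) hmap]
      apply Finset.sum_congr rfl
      intro k _
      rw [Finset.sum_congr rfl (g := fun _ => ((T.filter (fun w => cl w = k)).card : ℝ))]
      · rw [Finset.sum_const, nsmul_eq_mul, pow_two]
      · intro v hv
        rw [Finset.mem_filter] at hv
        rw [hv.2]
    rw [h7]
    ring
  rw [h4]
  have h8 : (T.card : ℝ) = ∑ k ∈ C, ((T.filter (fun w => cl w = k)).card : ℝ) := by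
    have := Finset.card_eq_sum_card_fiberwise (f := cl) (s := T) (t := C) hmap
    exact_mod_cast this
  have h9 := sq_sum_le_card_mul_sum_sq (s := C)
    (f := fun k => ((T.filter (fun w => cl w = k)).card : ℝ))
  rw [← h8] at h9
  have hC' : (0 : ℝ) < C.card := by exact_mod_cast hC
  have h10 : (T.card : ℝ) ^ 2 / C.card ≤ ∑ k ∈ C, ((T.filter (fun w => cl w = k)).card : ℝ) ^ 2 := by
    rw [div_le_iff₀ hC']
    linarith
  have h11 := mul_le_mul_of_nonneg_left h10 hq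
  have h12 : (1 + q / C.card) * (T.card : ℝ) ^ 2
      = (T.card : ℝ) ^ 2 + q * ((T.card : ℝ) ^ 2 / C.card) := by
    ring
  rw [h12]
  linarith

theorem upper_Hur {p : Pt} (hp : p ∈ UH) :
    ∑' v : Prim Hur, ENNReal.ofReal (psi (153 / 100) (103 / 100) (1 / uval v p))
      ≤ ENNReal.ofReal (24 * (133 / 100)) := by
  have e0 : ∀ v : ℍ[ℝ] × ℍ[ℝ], psi (153 / 100) (103 / 100) (1 / uval v p)
      = (fun u : ℝ => max 0 (min (153 / 100 - u) (103 / 100))) (uval v p) := by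
    intro v
    unfold psi
    rw [one_div_one_div]
  simp only [e0]
  refine (generic (fun u : ℝ => max 0 (min (153 / 100 - u) (103 / 100))) (fun u => le_max_left _ _)
    (133 / 100) p ?_).trans ?_
  · intro T hT hTd
    apply final_step hp T (by norm_num) (by norm_num)
    intro T' hT' hk
    have hd1 : ∀ v ∈ T', ∀ w ∈ T', v ≠ w → 1 ≤ dtn v w := fun v hv w hw hvw =>
      dtn_ge_one (hT v (hT' hv)) (hT w (hT' hw)) (hTd v (hT' hv) w (hT' hw) hvw)
    have e1 := sum_ge T' 0 le_rfl (fun _ => ()) {()} (by simp) (fun v _ => dtn_nonneg v v) hd1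
      (fun v hv w hw h _ => by have := hd1 v hv w hw h; linarith) (by simp)
    have hCc : (Finset.univ : Finset (Option (ZMod 2 × ZMod 2))).card = 5 := by decide
    have e2 := sum_ge T' 1 (by norm_num) (fun v => cl (chi2 v)) Finset.univ
      (fun v _ => Finset.mem_univ _) (fun v _ => dtn_nonneg v v) hd1
      (fun v hv w hw h hc => by
        have := dtn_same (hT v (hT' hv)) (hT w (hT' hw)) (hTd v (hT' hv) w (hT' hw) h) hc
        linarith) (by rw [hCc]; norm_num)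
    rw [hCc] at e2
    generalize T'.card = k at *
    rcases Nat.lt_or_ge k 5 with h4 | h4
    · interval_cases k <;> norm_num at e1 ⊢ <;> linarith
    · have h5 : (5 : ℝ) ≤ (k : ℝ) := by exact_mod_cast h4
      norm_num at e2
      nlinarith
  · apply ENNReal.ofReal_le_ofReal
    have : (units.card : ℝ) ≤ 24 := by exact_mod_cast card_units
    nlinarith

end Pool.Agent.Helper34.Ram5
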