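import Pool.Agent.Helper10.Ram5.Lib

set_option autoImplicit false

/-!
# Hurwitz integers: integrality, parity classes, primitive rows
-/

namespace Pool.Agent.Helper34.Ram5

open Pool.Agent.Helper10.Ram5
open scoped Quaternion

/-- integral coordinates in the basis `1, i, j, (1+i+j+k)/2` -/
def IsH (x : ℍ[ℝ]) : Prop :=
  ∃ a b c d : ℤ, x.re = a + d / 2 ∧ x.imI = b + d / 2 ∧ x.imJ = c + d / 2 ∧ x.imK = d / 2

lemma IsH.zero : IsH 0 := ⟨0, 0, 0, 0, by simp⟩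
lemma IsH.one : IsH 1 := ⟨1, 0, 0, 0, by simp⟩

lemma IsH.add {x y : ℍ[ℝ]} (hx : IsH x) (hy : IsH y) : IsH (x + y) := by
  obtain ⟨a, b, c, d, h1, h2, h3, h4⟩ := hx
  obtain ⟨a', b', c', d', h5, h6, h7, h8⟩ := hy
  refine ⟨a + a', b + b', c + c', d + d', ?_, ?_, ?_, ?_⟩
  · rw [Quaternion.re_add, h1, h5]; push_cast; ring
  · rw [Quaternion.imI_add, h2, h6]; push_cast; ring
  · rw [Quaternion.imJ_add, h3, h7]; push_cast; ring
  · rw [Quaternion.imK_add, h4, h8]; push_cast; ring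

lemma IsH.neg {x : ℍ[ℝ]} (hx : IsH x) : IsH (-x) := by
  obtain ⟨a, b, c, d, h1, h2, h3, h4⟩ := hx
  refine ⟨-a, -b, -c, -d, ?_, ?_, ?_, ?_⟩
  · rw [Quaternion.re_neg, h1]; push_cast; ring
  · rw [Quaternion.imI_neg, h2]; push_cast; ring
  · rw [Quaternion.imJ_neg, h3]; push_cast; ring
  · rw [Quaternion.imK_neg, h4]; push_cast; ring

lemma IsH.sub {x y : ℍ[ℝ]} (hx : IsH x) (hy : IsH y) : IsH (x - y) := by
  rw [sub_eq_add_neg]; exact hx.add hy.neg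

lemma IsH.mul {x y : ℍ[ℝ]} (hx : IsH x) (hy : IsH y) : IsH (x * y) := by
  obtain ⟨a, b, c, d, h1, h2, h3, h4⟩ := hx
  obtain ⟨a', b', c', d', h5, h6, h7, h8⟩ := hy
  refine ⟨a * a' - b * b' - c * c' - b * c' + c * b' - b * d' - d * c' - d * d',
    a * b' + b * a' - b * c' + c * b' + d * b' + c * d' - d * c',
    a * c' + c * a' - b * c' + c * b' - b * d' + c * d' + d * b',
    2 * b * c' - 2 * c * b' + a * d' + b * d' + d * c' - c * d' - d * b' + d * a' + d * d',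
    ?_, ?_, ?_, ?_⟩
  · rw [Quaternion.re_mul, h1, h2, h3, h4, h5, h6, h7, h8]; push_cast; ring
  · rw [Quaternion.imI_mul, h1, h2, h3, h4, h5, h6, h7, h8]; push_cast; ring
  · rw [Quaternion.imJ_mul, h1, h2, h3, h4, h5, h6, h7, h8]; push_cast; ring
  · rw [Quaternion.imK_mul, h1, h2, h3, h4, h5, h6, h7, h8]; push_cast; ring

lemma IsH.star {x : ℍ[ℝ]} (hx : IsH x) : IsH (star x) := by
  obtain ⟨a, b, c, d, h1, h2, h3, h4⟩ := hx
  refine ⟨a + d, -b, -c, -d, ?_, ?_, ?_, ?_⟩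
  · rw [Quaternion.re_star, h1]; push_cast; ring
  · rw [Quaternion.imI_star, h2]; push_cast; ring
  · rw [Quaternion.imJ_star, h3]; push_cast; ring
  · rw [Quaternion.imK_star, h4]; push_cast; ring

lemma isH_of_mem {x : ℍ[ℝ]} (hx : x ∈ Hur) : IsH x := by
  unfold Hur at hx
  induction hx using Subring.closure_induction with
  | mem x h =>
    rcases h with h | h | h
    · exact ⟨0, 1, 0, 0, by rw [h]; simp⟩
    · exact ⟨0, 0, 1, 0, by rw [h]; simp⟩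
    · have h' : x = (⟨1 / 2, 1 / 2, 1 / 2, 1 / 2⟩ : ℍ[ℝ]) := h
      subst h'
      exact ⟨0, 0, 0, 1, by norm_num⟩
  | zero => exact IsH.zero
  | one => exact IsH.one
  | add x y _ _ hx hy => exact hx.add hy
  | neg x _ hx => exact hx.neg
  | mul x y _ _ hx hy => exact hx.mul hy

lemma nsq (x : ℍ[ℝ]) : ‖x‖ ^ 2 = x.re ^ 2 + x.imI ^ 2 + x.imJ ^ 2 + x.imK ^ 2 := by
  rw [pow_two, ← Quaternion.normSq_eq_norm_mul_self, Quaternion.normSq_def']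

lemma IsH.nsq_int {x : ℍ[ℝ]} (hx : IsH x) : ∃ n : ℤ, ‖x‖ ^ 2 = n := by
  obtain ⟨a, b, c, d, h1, h2, h3, h4⟩ := hx
  refine ⟨a ^ 2 + b ^ 2 + c ^ 2 + d ^ 2 + d * (a + b + c), ?_⟩
  rw [nsq, h1, h2, h3, h4]
  push_cast
  ring

lemma IsH.re_int {x : ℍ[ℝ]} (hx : IsH x) : ∃ n : ℤ, 2 * x.re = n := by
  obtain ⟨a, b, c, d, h1, h2, h3, h4⟩ := hx
  refine ⟨2 * a + d, ?_⟩
  rw [h1]
  push_cast
  ring

lemma IsH.disc {x : ℍ[ℝ]} (hx : IsH x) (h0 : x ≠ 0) : 1 ≤ ‖x‖ := by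
  obtain ⟨n, hn⟩ := hx.nsq_int
  have h1 : 0 < ‖x‖ := norm_pos_iff.mpr h0
  have h2 : (0 : ℝ) < n := by rw [← hn]; positivity
  have h3 : 0 < n := by exact_mod_cast h2
  have h4 : (1 : ℝ) ≤ n := by exact_mod_cast h3
  rw [← hn] at h4
  nlinarith

/-! ### the determinant of two rows -/

/-- squared Dieudonné determinant of two rows -/
noncomputable def dtn (v w : ℍ[ℝ] × ℍ[ℝ]) : ℝ :=
  ‖v.1‖ ^ 2 * ‖w.2‖ ^ 2 + ‖v.2‖ ^ 2 * ‖w.1‖ ^ 2 - 2 * (v.1 * star w.1 * w.2 * star v.2).re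

/-- real inner product of quaternions -/
def ip (x y : ℍ[ℝ]) : ℝ := x.re * y.re + x.imI * y.imI + x.imJ * y.imJ + x.imK * y.imK

lemma dtn_gram (v w : ℍ[ℝ] × ℍ[ℝ]) :
    dtn v w = (‖v.1‖ ^ 2 + ‖v.2‖ ^ 2) * (‖w.1‖ ^ 2 + ‖w.2‖ ^ 2)
      - ‖w.1 * star v.1 + w.2 * star v.2‖ ^ 2 := by
  unfold dtn
  obtain ⟨v1, v2⟩ := v
  obtain ⟨w1, w2⟩ := w
  simp only [nsq, Quaternion.re_mul, Quaternion.imI_mul, Quaternion.imJ_mul, Quaternion.imK_mul,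
    Quaternion.re_star, Quaternion.imI_star, Quaternion.imJ_star, Quaternion.imK_star,
    Quaternion.re_add, Quaternion.imI_add, Quaternion.imJ_add, Quaternion.imK_add]
  ring

lemma dtn_nonneg (v w : ℍ[ℝ] × ℍ[ℝ]) : 0 ≤ dtn v w := by
  rw [dtn_gram]
  have h1 : ‖w.1 * star v.1 + w.2 * star v.2‖ ≤ ‖w.1‖ * ‖v.1‖ + ‖w.2‖ * ‖v.2‖ := by
    refine (norm_add_le _ _).trans ?_
    rw [norm_mul, norm_mul, norm_star, norm_star]
  have h2 := pow_le_pow_left₀ (norm_nonneg _) h1 2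
  nlinarith [sq_nonneg (‖w.1‖ * ‖v.2‖ - ‖w.2‖ * ‖v.1‖)]

lemma nsq_sub_mul (e a b : ℍ[ℝ]) :
    ‖a - e * b‖ ^ 2 = ‖a‖ ^ 2 - 2 * ip (a * star b) e + ‖e‖ ^ 2 * ‖b‖ ^ 2 := by
  simp only [nsq, ip, Quaternion.re_mul, Quaternion.imI_mul, Quaternion.imJ_mul,
    Quaternion.imK_mul, Quaternion.re_star, Quaternion.imI_star, Quaternion.imJ_star,
    Quaternion.imK_star, Quaternion.re_sub, Quaternion.imI_sub, Quaternion.imJ_sub,
    Quaternion.imK_sub]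
  ring

lemma ip_add_left (a b e : ℍ[ℝ]) : ip (a + b) e = ip a e + ip b e := by
  simp only [ip, Quaternion.re_add, Quaternion.imI_add, Quaternion.imJ_add, Quaternion.imK_add]
  ring

lemma mul_star_self' (a : ℍ[ℝ]) : a * star a = ((‖a‖ ^ 2 : ℝ) : ℍ[ℝ]) := by
  rw [Quaternion.self_mul_star, Quaternion.normSq_eq_norm_mul_self, pow_two]

lemma nsq_sub_smul (S e : ℍ[ℝ]) (n : ℝ) :
    ‖S - n • e‖ ^ 2 = ‖S‖ ^ 2 - 2 * n * ip S e + n ^ 2 * ‖e‖ ^ 2 := by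
  simp only [nsq, ip, Quaternion.re_sub, Quaternion.imI_sub, Quaternion.imJ_sub,
    Quaternion.imK_sub, Quaternion.re_smul, Quaternion.imI_smul, Quaternion.imJ_smul,
    Quaternion.imK_smul, smul_eq_mul]
  ring

/-- invariance under row operations -/
lemma dtn_sub (v w : ℍ[ℝ] × ℍ[ℝ]) (e : ℍ[ℝ]) :
    dtn v (w.1 - e * v.1, w.2 - e * v.2) = dtn v w := by
  rw [dtn_gram, dtn_gram]
  have h1 : (w.1 - e * v.1) * star v.1 + (w.2 - e * v.2) * star v.2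
      = (w.1 * star v.1 + w.2 * star v.2) - (‖v.1‖ ^ 2 + ‖v.2‖ ^ 2) • e := by
    rw [sub_mul, sub_mul, mul_assoc e, mul_assoc e, mul_star_self', mul_star_self',
      Quaternion.mul_coe_eq_smul, Quaternion.mul_coe_eq_smul, add_smul]
    abel
  simp only
  rw [h1, nsq_sub_smul, nsq_sub_mul, nsq_sub_mul, ip_add_left]
  ring

lemma dtn_mul (v t : ℍ[ℝ] × ℍ[ℝ]) (e : ℍ[ℝ]) :
    dtn v (e * t.1, e * t.2) = ‖e‖ ^ 2 * dtn v t := by
  rw [dtn_gram, dtn_gram]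
  have h1 : e * t.1 * star v.1 + e * t.2 * star v.2 = e * (t.1 * star v.1 + t.2 * star v.2) := by
    rw [mul_add, mul_assoc, mul_assoc]
  simp only
  rw [h1, norm_mul, norm_mul, norm_mul]
  ring

lemma dtn_int {v w : ℍ[ℝ] × ℍ[ℝ]} (h1 : IsH v.1) (h2 : IsH v.2) (h3 : IsH w.1) (h4 : IsH w.2) :
    ∃ n : ℤ, dtn v w = n := by
  obtain ⟨a, ha⟩ := h1.nsq_int
  obtain ⟨b, hb⟩ := h2.nsq_int
  obtain ⟨c, hc⟩ := h3.nsq_int
  obtain ⟨d, hd⟩ := h4.nsq_int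
  obtain ⟨e, he⟩ := (((h1.mul h3.star).mul h4).mul h2.star).re_int
  refine ⟨a * d + b * c - e, ?_⟩
  unfold dtn
  rw [ha, hb, hc, hd, he]
  push_cast
  ring

/-! ### primitive rows -/

lemma prim_spec {v : ℍ[ℝ] × ℍ[ℝ]} (hv : v ∈ Prim Hur) :
    IsH v.1 ∧ IsH v.2 ∧ ∃ a b : ℍ[ℝ], IsH a ∧ IsH b ∧ v.1 * a + v.2 * b = 1 := by
  obtain ⟨γ, hγ, rfl⟩ := hv
  obtain ⟨g, rfl⟩ := hγ
  refine ⟨isH_of_mem ?_, isH_of_mem ?_, ?_⟩
  · simp
  · simp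
  · refine ⟨((g⁻¹).1 0 1 : ℍ[ℝ]), ((g⁻¹).1 1 1 : ℍ[ℝ]), isH_of_mem ((g⁻¹).1 0 1).2,
      isH_of_mem ((g⁻¹).1 1 1).2, ?_⟩
    have h1 : g.1 * (g⁻¹).1 = 1 := g.mul_inv
    have h2 := congrFun (congrFun h1 1) 1
    rw [Matrix.mul_apply, Fin.sum_univ_two] at h2
    have h3 := congrArg (fun x : Hur => (x : ℍ[ℝ])) h2
    simpa using h3

lemma prim_ne {v : ℍ[ℝ] × ℍ[ℝ]} (hv : v ∈ Prim Hur) : ¬ (v.1 = 0 ∧ v.2 = 0) := by
  rintro ⟨h1, h2⟩
  obtain ⟨-, -, a, b, -, -, hab⟩ := prim_spec hv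
  rw [h1, h2] at hab
  simp at hab

lemma prim_pos {v : ℍ[ℝ] × ℍ[ℝ]} (hv : v ∈ Prim Hur) : 0 < ‖v.1‖ ^ 2 + ‖v.2‖ ^ 2 := by
  by_contra hcon
  apply prim_ne hv
  have h1 : 0 ≤ ‖v.1‖ ^ 2 := by positivity
  have h2 : 0 ≤ ‖v.2‖ ^ 2 := by positivity
  have h3 : ‖v.1‖ ^ 2 = 0 := by linarith
  have h4 : ‖v.2‖ ^ 2 = 0 := by linarith
  exact ⟨by simpa using h3, by simpa using h4⟩

lemma same_aux {v w : ℍ[ℝ] × ℍ[ℝ]} (hv : v ∈ Prim Hur) (hw : w ∈ Prim Hur)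
    (h : dtn v w = 0) : ∃ e, IsH e ∧ w = (e * v.1, e * v.2) := by
  obtain ⟨-, -, a, b, ha, hb, hab⟩ := prim_spec hv
  obtain ⟨h3, h4, -⟩ := prim_spec hw
  have hn := prim_pos hv
  set n : ℝ := ‖v.1‖ ^ 2 + ‖v.2‖ ^ 2 with hn'
  set e : ℍ[ℝ] := n⁻¹ • (w.1 * star v.1 + w.2 * star v.2) with he
  have h5 := dtn_sub v w e
  rw [h, dtn_gram] at h5
  have h6 : (w.1 - e * v.1) * star v.1 + (w.2 - e * v.2) * star v.2 = 0 := by
    rw [sub_mul, sub_mul, mul_assoc e, mul_assoc e, mul_star_self', mul_star_self',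
      Quaternion.mul_coe_eq_smul, Quaternion.mul_coe_eq_smul]
    have h7 : w.1 * star v.1 + w.2 * star v.2 = n • e := by
      rw [he, smul_smul, mul_inv_cancel₀ hn.ne', one_smul]
    have h8 : w.1 * star v.1 - ‖v.1‖ ^ 2 • e + (w.2 * star v.2 - ‖v.2‖ ^ 2 • e)
        = (w.1 * star v.1 + w.2 * star v.2) - (‖v.1‖ ^ 2 + ‖v.2‖ ^ 2) • e := by
      rw [add_smul]; abel
    rw [h8, h7, ← hn', sub_self]
  simp only [← hn'] at h5
  rw [h6] at h5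
  simp only [norm_zero] at h5
  have h9 : ‖w.1 - e * v.1‖ ^ 2 + ‖w.2 - e * v.2‖ ^ 2 = 0 := by
    have : n * (‖w.1 - e * v.1‖ ^ 2 + ‖w.2 - e * v.2‖ ^ 2) = 0 := by linarith
    exact (mul_eq_zero.mp this).resolve_left hn.ne'
  have h10 : 0 ≤ ‖w.1 - e * v.1‖ ^ 2 := by positivity
  have h11 : 0 ≤ ‖w.2 - e * v.2‖ ^ 2 := by positivity
  have h12 : ‖w.1 - e * v.1‖ ^ 2 = 0 := by linarith
  have h13 : ‖w.2 - e * v.2‖ ^ 2 = 0 := by linarith
  have h14 : w.1 = e * v.1 := by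
    have : w.1 - e * v.1 = 0 := by simpa using h12
    exact sub_eq_zero.mp this
  have h15 : w.2 = e * v.2 := by
    have : w.2 - e * v.2 = 0 := by simpa using h13
    exact sub_eq_zero.mp this
  refine ⟨e, ?_, Prod.ext h14 h15⟩
  have h16 : e = w.1 * a + w.2 * b := by
    rw [h14, h15, mul_assoc, mul_assoc, ← mul_add, hab, mul_one]
  rw [h16]
  exact (h3.mul ha).add (h4.mul hb)

lemma dtn_comm (v w : ℍ[ℝ] × ℍ[ℝ]) : dtn v w = dtn w v := by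
  rw [dtn_gram, dtn_gram]
  have h1 : ‖w.1 * star v.1 + w.2 * star v.2‖ = ‖v.1 * star w.1 + v.2 * star w.2‖ := by
    rw [← norm_star (w.1 * star v.1 + w.2 * star v.2), star_add, star_mul, star_mul, star_star,
      star_star]
  rw [h1]
  ring

lemma same_line {v w : ℍ[ℝ] × ℍ[ℝ]} (hv : v ∈ Prim Hur) (hw : w ∈ Prim Hur)
    (h : dtn v w = 0) : ∃ e, IsH e ∧ ‖e‖ = 1 ∧ w = (e * v.1, e * v.2) := by
  obtain ⟨e, he, hwe⟩ := same_aux hv hw h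
  obtain ⟨d, hd, hvd⟩ := same_aux hw hv (by rw [dtn_comm, h])
  have hv1 : v.1 = d * (e * v.1) := by
    have := congrArg Prod.fst hvd
    rw [hwe] at this
    exact this
  have hv2 : v.2 = d * (e * v.2) := by
    have := congrArg Prod.snd hvd
    rw [hwe] at this
    exact this
  obtain ⟨-, -, a, b, -, -, hab⟩ := prim_spec hv
  have hde : d * e = 1 := by
    calc d * e = d * e * (v.1 * a + v.2 * b) := by rw [hab, mul_one]
      _ = (d * (e * v.1)) * a + (d * (e * v.2)) * b := by noncomm_ring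
      _ = v.1 * a + v.2 * b := by rw [← hv1, ← hv2]
      _ = 1 := hab
  refine ⟨e, he, ?_, hwe⟩
  have hd0 : d ≠ 0 := by rintro rfl; simp at hde
  have he0 : e ≠ 0 := by rintro rfl; simp at hde
  have hn : ‖d‖ * ‖e‖ = 1 := by rw [← norm_mul, hde, norm_one]
  have h1 := hd.disc hd0
  have h2 := he.disc he0
  nlinarith

lemma dtn_ge_one {v w : ℍ[ℝ] × ℍ[ℝ]} (hv : v ∈ Prim Hur) (hw : w ∈ Prim Hur)
    (h : dtn v w ≠ 0) : 1 ≤ dtn v w := by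
  obtain ⟨h1, h2, -⟩ := prim_spec hv
  obtain ⟨h3, h4, -⟩ := prim_spec hw
  obtain ⟨n, hn⟩ := dtn_int h1 h2 h3 h4
  have h5 := dtn_nonneg v w
  rw [hn] at h h5 ⊢
  have h6 : 0 ≤ n := by exact_mod_cast h5
  have h7 : n ≠ 0 := by exact_mod_cast h
  have h8 : 1 ≤ n := by omega
  exact_mod_cast h8

/-! ### classes modulo `1 + i` -/

/-- residue of a Hurwitz integer modulo `1 + i` -/
noncomputable def chi (x : ℍ[ℝ]) : ZMod 2 × ZMod 2 :=
  (((⌊x.re - x.imK⌋ + ⌊x.imI - x.imK⌋ + ⌊x.imJ - x.imK⌋ : ℤ) : ZMod 2),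
    ((⌊2 * x.imK⌋ : ℤ) : ZMod 2))

lemma chi_val {x : ℍ[ℝ]} {a b c d : ℤ} (h1 : x.re = a + d / 2) (h2 : x.imI = b + d / 2)
    (h3 : x.imJ = c + d / 2) (h4 : x.imK = d / 2) :
    chi x = (((a + b + c : ℤ) : ZMod 2), ((d : ℤ) : ZMod 2)) := by
  unfold chi
  rw [h1, h2, h3, h4]
  have h1 : (a : ℝ) + d / 2 - d / 2 = a := by ring
  have h2 : (b : ℝ) + d / 2 - d / 2 = b := by ring
  have h3 : (c : ℝ) + d / 2 - d / 2 = c := by ring
  have h4 : 2 * ((d : ℝ) / 2) = d := by ring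
  simp only [h1, h2, h3, h4, Int.floor_intCast]

lemma chi_sub {x y : ℍ[ℝ]} (hx : IsH x) (hy : IsH y) : chi (x - y) = chi x - chi y := by
  obtain ⟨a, b, c, d, h1, h2, h3, h4⟩ := hx
  obtain ⟨a', b', c', d', h5, h6, h7, h8⟩ := hy
  have e : chi (x - y) = (((a - a' + (b - b') + (c - c') : ℤ) : ZMod 2), ((d - d' : ℤ) : ZMod 2)) := by
    apply chi_val
    · rw [Quaternion.re_sub, h1, h5]; push_cast; ring
    · rw [Quaternion.imI_sub, h2, h6]; push_cast; ring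
    · rw [Quaternion.imJ_sub, h3, h7]; push_cast; ring
    · rw [Quaternion.imK_sub, h4, h8]; push_cast; ring
  rw [e, chi_val h1 h2 h3 h4, chi_val h5 h6 h7 h8]
  ext
  · simp; ring
  · simp

/-- the unit `ω = (1 + i + j + k) / 2` -/
noncomputable def om : ℍ[ℝ] := ⟨1 / 2, 1 / 2, 1 / 2, 1 / 2⟩

lemma om_re : om.re = 1 / 2 := rfl
lemma om_imI : om.imI = 1 / 2 := rfl
lemma om_imJ : om.imJ = 1 / 2 := rfl
lemma om_imK : om.imK = 1 / 2 := rfl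

lemma isH_om : IsH om := ⟨0, 0, 0, 1, by rw [om_re, om_imI, om_imJ, om_imK]; norm_num⟩

lemma norm_om : ‖om‖ = 1 := by
  have h1 : ‖om‖ ^ 2 = 1 := by
    rw [nsq, om_re, om_imI, om_imJ, om_imK]
    norm_num
  have h2 := norm_nonneg om
  nlinarith

/-- multiplication by `ω` on residues -/
def rot (p : ZMod 2 × ZMod 2) : ZMod 2 × ZMod 2 := (p.2, p.1 + p.2)

lemma chi_om {x : ℍ[ℝ]} (hx : IsH x) : chi (om * x) = rot (chi x) := by
  obtain ⟨a, b, c, d, h1, h2, h3, h4⟩ := hx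
  have e : chi (om * x) = (((-c - d + (b - c) + b : ℤ) : ZMod 2), ((c - b + a + d : ℤ) : ZMod 2)) := by
    apply chi_val
    · rw [Quaternion.re_mul, h1, h2, h3, h4, om_re, om_imI, om_imJ, om_imK]; push_cast; ring
    · rw [Quaternion.imI_mul, h1, h2, h3, h4, om_re, om_imI, om_imJ, om_imK]; push_cast; ring
    · rw [Quaternion.imJ_mul, h1, h2, h3, h4, om_re, om_imI, om_imJ, om_imK]; push_cast; ring
    · rw [Quaternion.imK_mul, h1, h2, h3, h4, om_re, om_imI, om_imJ, om_imK]; push_cast; ring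
  rw [e, chi_val h1 h2 h3 h4]
  unfold rot
  have h2 : (2 : ZMod 2) = 0 := by decide
  ext
  · simp only
    push_cast
    linear_combination (b - c - d : ZMod 2) * h2
  · simp only
    push_cast
    linear_combination (-b : ZMod 2) * h2

/-- `1 + i` -/
noncomputable def opi : ℍ[ℝ] := ⟨1, 1, 0, 0⟩

lemma opi_re : opi.re = 1 := rfl
lemma opi_imI : opi.imI = 1 := rfl
lemma opi_imJ : opi.imJ = 0 := rfl
lemma opi_imK : opi.imK = 0 := rfl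

/-- divisibility by `1 + i` -/
lemma chi_zero {x : ℍ[ℝ]} (hx : IsH x) (h : chi x = 0) : ∃ t, IsH t ∧ x = opi * t := by
  obtain ⟨a, b, c, d, h1, h2, h3, h4⟩ := hx
  rw [chi_val h1 h2 h3 h4] at h
  have g1 : ((a + b + c : ℤ) : ZMod 2) = 0 := congrArg Prod.fst h
  have g2 : ((d : ℤ) : ZMod 2) = 0 := congrArg Prod.snd h
  rw [ZMod.intCast_zmod_eq_zero_iff_dvd] at g1 g2
  obtain ⟨e, he⟩ := g1
  obtain ⟨f, hf⟩ := g2
  have hc : c = 2 * e - a - b := by push_cast at he; linarith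
  have hd : d = 2 * f := by push_cast at hf; linarith
  subst hc hd
  obtain ⟨t, t1, t2, t3, t4⟩ : ∃ t : ℍ[ℝ], t.re = ((e + f : ℤ) : ℝ) + ((-(2 * e - a - b) : ℤ) : ℝ) / 2 ∧
      t.imI = ((e - a : ℤ) : ℝ) + ((-(2 * e - a - b) : ℤ) : ℝ) / 2 ∧
      t.imJ = ((2 * e - a - b + f : ℤ) : ℝ) + ((-(2 * e - a - b) : ℤ) : ℝ) / 2 ∧
      t.imK = ((-(2 * e - a - b) : ℤ) : ℝ) / 2 := ⟨⟨_, _, _, _⟩, rfl, rfl, rfl, rfl⟩
  refine ⟨t, ⟨_, _, _, _, t1, t2, t3, t4⟩, ?_⟩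
  apply Quaternion.ext
  · rw [Quaternion.re_mul, h1, t1, t2, t3, t4, opi_re, opi_imI, opi_imJ, opi_imK]
    push_cast; ring
  · rw [Quaternion.imI_mul, h2, t1, t2, t3, t4, opi_re, opi_imI, opi_imJ, opi_imK]
    push_cast; ring
  · rw [Quaternion.imJ_mul, h3, t1, t2, t3, t4, opi_re, opi_imI, opi_imJ, opi_imK]
    push_cast; ring
  · rw [Quaternion.imK_mul, h4, t1, t2, t3, t4, opi_re, opi_imI, opi_imJ, opi_imK]
    push_cast; ring

lemma norm_one_add_i : ‖opi‖ ^ 2 = 2 := by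
  rw [nsq, opi_re, opi_imI, opi_imJ, opi_imK]
  norm_num

/-- class of a row modulo `1 + i` -/
noncomputable def chi2 (v : ℍ[ℝ] × ℍ[ℝ]) : (ZMod 2 × ZMod 2) × (ZMod 2 × ZMod 2) :=
  (chi v.1, chi v.2)

/-- normalisation of a nonzero pair of residues: a point of the projective line over `F_4` -/
def cl (p : (ZMod 2 × ZMod 2) × (ZMod 2 × ZMod 2)) : Option (ZMod 2 × ZMod 2) :=
  if p.1 = (0, 0) then none
  else if p.1 = (1, 0) then some p.2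
  else if rot p.1 = (1, 0) then some (rot p.2)
  else some (rot (rot p.2))

lemma cl_spec : ∀ p q : (ZMod 2 × ZMod 2) × (ZMod 2 × ZMod 2), p ≠ 0 → q ≠ 0 → cl p = cl q →
    q = p ∨ q = (rot p.1, rot p.2) ∨ q = (rot (rot p.1), rot (rot p.2)) := by
  rintro ⟨⟨a, b⟩, ⟨c, d⟩⟩ ⟨⟨a', b'⟩, ⟨c', d'⟩⟩
  revert a b c d a' b' c' d'
  unfold cl rot
  decide

lemma chi2_ne {v : ℍ[ℝ] × ℍ[ℝ]} (hv : v ∈ Prim Hur) : chi2 v ≠ 0 := by
  intro h
  obtain ⟨h1, h2, a, b, ha, hb, hab⟩ := prim_spec hv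
  obtain ⟨s, hs, hs'⟩ := chi_zero h1 (congrArg Prod.fst h)
  obtain ⟨t, ht, ht'⟩ := chi_zero h2 (congrArg Prod.snd h)
  have h3 : opi * (s * a + t * b) = 1 := by
    rw [mul_add, ← mul_assoc, ← mul_assoc, ← hs', ← ht', hab]
  obtain ⟨n, hn⟩ := ((hs.mul ha).add (ht.mul hb)).nsq_int
  have h4 := congrArg (fun x : ℍ[ℝ] => ‖x‖ ^ 2) h3
  simp only [norm_mul, mul_pow, norm_one_add_i, hn, norm_one] at h4
  have h5 : (2 * n : ℝ) = ((1 : ℤ) : ℝ) := by push_cast; linarith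
  have h6 : 2 * n = 1 := by exact_mod_cast h5
  omega

lemma dtn_same {v w : ℍ[ℝ] × ℍ[ℝ]} (hv : v ∈ Prim Hur) (hw : w ∈ Prim Hur)
    (h0 : dtn v w ≠ 0) (h : cl (chi2 v) = cl (chi2 w)) : 2 ≤ dtn v w := by
  obtain ⟨h1, h2, -⟩ := prim_spec hv
  obtain ⟨h3, h4, -⟩ := prim_spec hw
  have key : ∀ e : ℍ[ℝ], IsH e → chi w.1 = chi (e * v.1) → chi w.2 = chi (e * v.2) →
      2 ≤ dtn v w := by
    intro e he h5 h6
    have h7 : chi (w.1 - e * v.1) = 0 := by rw [chi_sub h3 (he.mul h1), h5, sub_self]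
    have h8 : chi (w.2 - e * v.2) = 0 := by rw [chi_sub h4 (he.mul h2), h6, sub_self]
    obtain ⟨s, hs, hs'⟩ := chi_zero (h3.sub (he.mul h1)) h7
    obtain ⟨t, ht, ht'⟩ := chi_zero (h4.sub (he.mul h2)) h8
    have h9 := dtn_sub v w e
    rw [hs', ht'] at h9
    have h10 := dtn_mul v (s, t) opi
    simp only at h10
    rw [h10, norm_one_add_i] at h9
    obtain ⟨n, hn⟩ := dtn_int (v := v) (w := (s, t)) h1 h2 hs ht
    rw [hn] at h9
    have h11 := dtn_nonneg v w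
    rw [← h9] at h0 h11 ⊢
    have h12 : 0 ≤ n := by
      have : (0 : ℝ) ≤ n := by linarith
      exact_mod_cast this
    have h13 : n ≠ 0 := by
      rintro rfl
      simp at h0
    have h14 : 1 ≤ n := by omega
    have h15 : (1 : ℝ) ≤ n := by exact_mod_cast h14
    linarith
  rcases cl_spec _ _ (chi2_ne hv) (chi2_ne hw) h with h5 | h5 | h5
  · exact key 1 IsH.one (by rw [one_mul]; exact congrArg Prod.fst h5)
      (by rw [one_mul]; exact congrArg Prod.snd h5)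
  · exact key om isH_om (by rw [chi_om h1]; exact congrArg Prod.fst h5)
      (by rw [chi_om h2]; exact congrArg Prod.snd h5)
  · refine key (om * om) (isH_om.mul isH_om) ?_ ?_
    · rw [mul_assoc, chi_om (isH_om.mul h1), chi_om h1]; exact congrArg Prod.fst h5
    · rw [mul_assoc, chi_om (isH_om.mul h2), chi_om h2]; exact congrArg Prod.snd h5

end Pool.Agent.Helper34.Ram5
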